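import Pool.Agent.J4H32.MV.S6

/-!
Project MV (helper32, MP_68a45e_nt), piece NV: the classes modulo the primorial.
(`count_crt`, `count_prod` as in Pool.Agent.J4H68.MV.Nb)
-/

set_option autoImplicit false

namespace Pool.Agent.J4H79.MV

open Finset Pool.Agent.J4H32.MV

theorem count_crt {m n : ℕ} (hm : 0 < m) (hn : 0 < n) (hc : m.Coprime n) (A B : ℕ → Prop)
    [DecidablePred A] [DecidablePred B]
    (hA : ∀ b, A (b % m) ↔ A b) (hB : ∀ b, B (b % n) ↔ B b) :
    ((range (m * n)).filter (fun b => A b ∧ B b)).card =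
      ((range m).filter A).card * ((range n).filter B).card := by
  rw [← card_product]
  refine card_nbij' (fun b => (b % m, b % n)) (fun q => (Nat.chineseRemainder hc q.1 q.2 : ℕ))
    ?_ ?_ ?_ ?_
  · intro b hb
    simp only [mem_coe, mem_filter, mem_range, mem_product] at hb ⊢
    exact ⟨⟨Nat.mod_lt _ hm, (hA b).2 hb.2.1⟩, Nat.mod_lt _ hn, (hB b).2 hb.2.2⟩
  · rintro ⟨x, y⟩ hq
    simp only [mem_coe, mem_filter, mem_range, mem_product] at hq ⊢
    have h1 := (Nat.chineseRemainder hc x y).2.1
    have h2 := (Nat.chineseRemainder hc x y).2.2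
    have h3 := Nat.chineseRemainder_lt_mul hc x y hm.ne' hn.ne'
    set z : ℕ := (Nat.chineseRemainder hc x y : ℕ) with hz
    have e1 : z % m = x := by
      have : z % m = x % m := h1
      rw [this, Nat.mod_eq_of_lt hq.1.1]
    have e2 : z % n = y := by
      have : z % n = y % n := h2
      rw [this, Nat.mod_eq_of_lt hq.2.1]
    refine ⟨h3, ?_, ?_⟩
    · rw [← hA, e1]
      exact hq.1.2
    · rw [← hB, e2]
      exact hq.2.2
  · intro b hb
    simp only [mem_coe, mem_filter, mem_range] at hb
    have h1 := (Nat.chineseRemainder hc (b % m) (b % n)).2.1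
    have h2 := (Nat.chineseRemainder hc (b % m) (b % n)).2.2
    have h3 := Nat.chineseRemainder_lt_mul hc (b % m) (b % n) hm.ne' hn.ne'
    have h4 : (Nat.chineseRemainder hc (b % m) (b % n) : ℕ) ≡ b [MOD m * n] := by
      rw [← Nat.modEq_and_modEq_iff_modEq_mul hc]
      exact ⟨h1.trans (Nat.mod_modEq b m), h2.trans (Nat.mod_modEq b n)⟩
    have h5 : (Nat.chineseRemainder hc (b % m) (b % n) : ℕ) % (m * n) = b % (m * n) := h4
    rwa [Nat.mod_eq_of_lt h3, Nat.mod_eq_of_lt hb.1] at h5
  · rintro ⟨x, y⟩ hq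
    simp only [mem_coe, mem_filter, mem_range, mem_product] at hq
    have h1 : (Nat.chineseRemainder hc x y : ℕ) % m = x % m := (Nat.chineseRemainder hc x y).2.1
    have h2 : (Nat.chineseRemainder hc x y : ℕ) % n = y % n := (Nat.chineseRemainder hc x y).2.2
    rw [Prod.mk.injEq]
    exact ⟨by rw [h1, Nat.mod_eq_of_lt hq.1.1], by rw [h2, Nat.mod_eq_of_lt hq.2.1]⟩

/-- the number of classes which avoid the shifts -/
def cp {K : ℕ} (a : Fin K → ℕ) (p : ℕ) : ℕ := ((range p).filter (fun b => ∀ j, ¬ p ∣ b + a j)).card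

theorem count_prod {K : ℕ} (a : Fin K → ℕ) (S : Finset ℕ) (hS : ∀ p ∈ S, p.Prime) :
    ((range (∏ p ∈ S, p)).filter (fun b => ∀ p ∈ S, ∀ j, ¬ p ∣ b + a j)).card = ∏ p ∈ S, cp a p := by
  induction S using Finset.induction_on with
  | empty => simp
  | insert q S hq ih =>
    have hqp := hS q (mem_insert_self _ _)
    have hS' : ∀ p ∈ S, p.Prime := fun p hp => hS p (mem_insert_of_mem hp)
    rw [prod_insert hq, prod_insert hq, ← ih hS']
    have hc : q.Coprime (∏ p ∈ S, p) := by
      refine Nat.Coprime.prod_right fun p hp => ?_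
      rw [Nat.coprime_primes hqp (hS' p hp)]
      rintro rfl
      exact hq hp
    have hdiv : ∀ p m b c : ℕ, p ∣ m → (p ∣ b % m + c ↔ p ∣ b + c) := by
      intro p m b c hpm
      have h1 : b % m + c ≡ b + c [MOD p] := ((Nat.mod_modEq b m).of_dvd hpm).add_right c
      exact (h1.dvd_iff (dvd_refl p))
    rw [cp, ← count_crt hqp.pos (Finset.prod_pos fun p hp => (hS' p hp).pos) hc
      (fun b => ∀ j, ¬ q ∣ b + a j) (fun b => ∀ p ∈ S, ∀ j, ¬ p ∣ b + a j)]
    · congr 1
      ext b
      simp only [mem_filter, mem_range, mem_insert, forall_eq_or_imp]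
    · intro b
      refine forall_congr' fun j => ?_
      rw [hdiv q q b (a j) (dvd_refl q)]
    · intro b
      refine forall_congr' fun p => forall_congr' fun hp => forall_congr' fun j => ?_
      rw [hdiv p _ b (a j) (Finset.dvd_prod_of_mem _ hp)]

theorem cp_eq {K : ℕ} (a : Fin K → ℕ) {p : ℕ} (hp : p.Prime) : cp a p + nuP a p = p := by
  unfold cp nuP
  have h1 := card_filter_add_card_filter_not (s := range p) (fun b => ∀ j, ¬ p ∣ b + a j)
  rw [card_range] at h1
  have h2 : ((range p).filter (fun b => ¬ ∀ j, ¬ p ∣ b + a j)).card =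
      ((univ : Finset (Fin K)).image (fun j => a j % p)).card := by
    refine card_nbij' (fun b => (p - b) % p) (fun r => (p - r) % p) ?_ ?_ ?_ ?_
    · intro b hb
      simp only [coe_filter, mem_range, Set.mem_ofPred_eq, not_forall, not_not, coe_image, coe_univ,
        Set.image_univ, Set.mem_range] at hb ⊢
      obtain ⟨hb, j, hj⟩ := hb
      refine ⟨j, ?_⟩
      have h3 : b + a j ≡ b + (p - b) [MOD p] := by
        rw [show b + (p - b) = p by omega]
        exact ((Nat.modEq_zero_iff_dvd).2 hj).trans ((Nat.modEq_zero_iff_dvd).2 dvd_rfl).symm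
      exact Nat.ModEq.add_left_cancel' b h3
    · intro r hr
      simp only [coe_filter, mem_range, Set.mem_ofPred_eq, not_forall, not_not, coe_image, coe_univ,
        Set.image_univ, Set.mem_range] at hr ⊢
      obtain ⟨j, rfl⟩ := hr
      refine ⟨Nat.mod_lt _ hp.pos, j, ?_⟩
      have h4 := Nat.mod_lt (a j) hp.pos
      have h3 : (p - a j % p) % p + a j ≡ (p - a j % p) + a j % p [MOD p] :=
        (Nat.mod_modEq _ _).add (Nat.mod_modEq _ _).symm
      rw [show (p - a j % p) + a j % p = p by omega] at h3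
      exact (h3.dvd_iff (dvd_refl p)).2 dvd_rfl
    · intro b hb
      simp only [coe_filter, mem_range, Set.mem_ofPred_eq] at hb
      have h5 := hb.1
      rcases Nat.eq_zero_or_pos b with h0 | h0
      · simp [h0]
      · show (p - (p - b) % p) % p = b
        rw [Nat.mod_eq_of_lt (show p - b < p by omega), show p - (p - b) = b by omega,
          Nat.mod_eq_of_lt h5]
    · intro r hr
      simp only [coe_image, coe_univ, Set.image_univ, Set.mem_range] at hr
      obtain ⟨j, rfl⟩ := hr
      have h5 := Nat.mod_lt (a j) hp.pos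
      rcases Nat.eq_zero_or_pos (a j % p) with h0 | h0
      · simp [h0]
      · show (p - (p - a j % p) % p) % p = a j % p
        rw [Nat.mod_eq_of_lt (show p - a j % p < p by omega),
          show p - (p - a j % p) = a j % p by omega, Nat.mod_eq_of_lt h5]
  rw [← h2]
  exact h1

/-- NV. -/
theorem t_NV : S_NV := by
  intro K w a
  obtain ⟨S, hS⟩ : ∃ S : Finset ℕ, S = (range (w + 1)).filter Nat.Prime := ⟨_, rfl⟩
  have hSp : ∀ p ∈ S, p.Prime := fun p hp => by
    rw [hS, mem_filter] at hp
    exact hp.2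
  have hW : primorial w = ∏ p ∈ S, p := by rw [hS]; rfl
  have hcard : ((range (primorial w)).filter (fun b => ∀ j, (b + a j).Coprime (primorial w))).card =
      ∏ p ∈ S, cp a p := by
    rw [← count_prod a S hSp, ← hW]
    congr 1
    refine filter_congr fun b _ => ?_
    rw [hW]
    constructor
    · intro h p hp j hd
      have h1 := h j
      rw [Nat.coprime_prod_right_iff] at h1
      have h2 := h1 p hp
      have h3 := Nat.Coprime.eq_one_of_dvd (Nat.Coprime.symm h2) hd
      exact (hSp p hp).one_lt.ne' h3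
    · intro h j
      rw [Nat.coprime_prod_right_iff]
      intro p hp
      exact (Nat.Coprime.symm (((hSp p hp).coprime_iff_not_dvd).2 (h p hp j)))
  have htot : ∀ T : Finset ℕ, (∀ p ∈ T, p.Prime) →
      ((Nat.totient (∏ p ∈ T, p) : ℕ) : ℝ) = ∏ p ∈ T, ((p : ℝ) - 1) := by
    intro T
    induction T using Finset.induction_on with
    | empty => simp
    | insert q T hq ih =>
      intro hT
      have hqp := hT q (mem_insert_self _ _)
      have hT' : ∀ p ∈ T, p.Prime := fun p hp => hT p (mem_insert_of_mem hp)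
      have hc : q.Coprime (∏ p ∈ T, p) := by
        refine Nat.Coprime.prod_right fun p hp => ?_
        rw [Nat.coprime_primes hqp (hT' p hp)]
        rintro rfl
        exact hq hp
      rw [prod_insert hq, Nat.totient_mul hc, Nat.totient_prime hqp, prod_insert hq, Nat.cast_mul,
        ih hT', Nat.cast_sub hqp.one_le, Nat.cast_one]
  unfold SW
  rw [hcard, ← hS, hW, htot S hSp, Nat.cast_prod, Nat.cast_prod, ← prod_div_distrib,
    ← prod_div_distrib, ← prod_pow, ← prod_mul_distrib]
  refine prod_congr rfl fun p hp => ?_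
  have hpp := hSp p hp
  have h0 : (p : ℝ) ≠ 0 := by exact_mod_cast hpp.ne_zero
  have h2 : (1 : ℝ) < p := by exact_mod_cast hpp.one_lt
  have h1 : (p : ℝ) - 1 ≠ 0 := by
    intro h
    linarith
  unfold fac
  have h3 : (cp a p : ℝ) = p - nuP a p := by
    have := cp_eq a hpp
    have h4 : ((cp a p : ℕ) : ℝ) + (nuP a p : ℕ) = p := by exact_mod_cast this
    linarith
  rw [h3, div_pow]
  have h4 : (1 - 1 / (p : ℝ)) ^ K = ((p : ℝ) - 1) ^ K / (p : ℝ) ^ K := by
    rw [← div_pow]
    congr 1
    field_simp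
  rw [h4]
  field_simp

end Pool.Agent.J4H79.MV
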